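import Pool.Agent.helper13.UN.SpecG

/-!
# Project UN (MP_cf4097_nt), row TFE: the theta functional equation
-/

set_option autoImplicit false

open NumberField Complex

namespace Pool.Agent.UN

theorem TFE_cp {t : ℝ} (ht : 0 < t) (x : ℂ) : ((t : ℝ) : ℂ) ^ x = Complex.exp (((Real.log t : ℝ) : ℂ) * x) := by
  rw [Complex.cpow_def_of_ne_zero (by exact_mod_cast ht.ne'), ← Complex.ofReal_log ht.le]

theorem TFE_cr {t : ℝ} (ht : 0 < t) (x : ℝ) : ((t ^ x : ℝ) : ℂ) = Complex.exp (((Real.log t : ℝ) : ℂ) * (x : ℂ)) := by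
  rw [Complex.ofReal_cpow ht.le, TFE_cp ht]

theorem TFE_conj_exp (L : ℝ) (x : ℂ) :
    (starRingEnd ℂ) (Complex.exp ((L : ℂ) * x)) = Complex.exp ((L : ℂ) * (starRingEnd ℂ) x) := by
  rw [← Complex.exp_conj, map_mul, Complex.conj_ofReal]

theorem TFE_mc {z : ℂ} (h : ‖z‖ = 1) : z * (starRingEnd ℂ) z = 1 := by
  rw [Complex.mul_conj, Complex.normSq_eq_norm_sq, h]
  norm_num

section

variable {K : Type} [Field K] [NumberField K]

omit [NumberField K] in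
theorem TFE_ex (τ : InfinitePlace K → ℝ) (a : InfinitePlace K → ℕ) (w : InfinitePlace K) :
    ex τ a w + (starRingEnd ℂ) (ex τ a w) = (a w : ℂ) := by
  unfold ex
  rw [map_div₀, map_add, map_mul, map_mul, Complex.conj_I, Complex.conj_ofReal, Complex.conj_natCast,
    Complex.conj_natCast]
  have h2 : (starRingEnd ℂ) (2 : ℂ) = 2 := Complex.conj_ofNat 2
  rw [h2]
  ring

/-- the powers of `y` -/
theorem TFE_y (τ : InfinitePlace K → ℝ) (a : InfinitePlace K → ℕ) (y : InfinitePlace K → ℝ) (hy : ∀ w, 0 < y w) :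
    (∏ w : InfinitePlace K, ((y w : ℝ) : ℂ) ^ (ex τ a w)) *
      ((∏ w : InfinitePlace K, (y w) ^ (-((w.mult : ℝ) / 2 + a w)) : ℝ) : ℂ) =
    ((∏ w : InfinitePlace K, (y w) ^ (-((w.mult : ℝ) / 2)) : ℝ) : ℂ) *
      ∏ w : InfinitePlace K, Complex.exp (((Real.log (y w) : ℝ) : ℂ) * (-((starRingEnd ℂ) (ex τ a w)))) := by
  rw [Complex.ofReal_prod, Complex.ofReal_prod, ← Finset.prod_mul_distrib, ← Finset.prod_mul_distrib]
  refine Finset.prod_congr rfl fun w _ => ?_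
  rw [TFE_cp (hy w), TFE_cr (hy w), TFE_cr (hy w), ← Complex.exp_add, ← Complex.exp_add]
  congr 1
  have h := TFE_ex τ a w
  push_cast
  linear_combination ((Real.log (y w) : ℝ) : ℂ) * h

/-- the powers of `z` -/
theorem TFE_z (τ : InfinitePlace K → ℝ) (a : InfinitePlace K → ℕ) (y z : InfinitePlace K → ℝ) (x : K)
    (hy : ∀ w, 0 < y w) (hx : ∀ w : InfinitePlace K, 0 < w x) (hz : ∀ w, z w = 1 / ((w x) ^ 2 * y w)) :
    (starRingEnd ℂ) (∏ w : InfinitePlace K, ((z w : ℝ) : ℂ) ^ (ex τ a w)) =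
      (∏ w : InfinitePlace K, Complex.exp (((Real.log (w x) : ℝ) : ℂ) * (-(2 * (starRingEnd ℂ) (ex τ a w))))) *
      ∏ w : InfinitePlace K, Complex.exp (((Real.log (y w) : ℝ) : ℂ) * (-((starRingEnd ℂ) (ex τ a w)))) := by
  rw [map_prod, ← Finset.prod_mul_distrib]
  refine Finset.prod_congr rfl fun w _ => ?_
  have hz0 : 0 < z w := by
    rw [hz w]
    have := hy w
    have := hx w
    positivity
  rw [TFE_cp hz0, TFE_conj_exp, ← Complex.exp_add]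
  congr 1
  have h1 : Real.log (z w) = -(2 * Real.log (w x) + Real.log (y w)) := by
    rw [hz w, one_div, Real.log_inv, Real.log_mul (pow_ne_zero _ (hx w).ne') (hy w).ne', Real.log_pow]
    push_cast
    ring
  rw [h1]
  push_cast
  ring

/-- the powers of `β` -/
theorem TFE_b (τ : InfinitePlace K → ℝ) (a : InfinitePlace K → ℕ) (x : K) (P A : ℂ) (hx : ∀ w : InfinitePlace K, 0 < w x)
    (hA : ‖A‖ = 1)
    (hP : P = A * ∏ w : InfinitePlace K, ((w x : ℝ) : ℂ) ^ ((a w : ℂ) + (w.mult : ℂ) * (τ w : ℂ) * I)) :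
    (∏ w : InfinitePlace K, Complex.exp (((Real.log (w x) : ℝ) : ℂ) * (-(2 * (starRingEnd ℂ) (ex τ a w))))) * A *
      (starRingEnd ℂ) P = 1 := by
  have h1 : (starRingEnd ℂ) (∏ w : InfinitePlace K, ((w x : ℝ) : ℂ) ^ ((a w : ℂ) + (w.mult : ℂ) * (τ w : ℂ) * I)) =
      ∏ w : InfinitePlace K, Complex.exp (((Real.log (w x) : ℝ) : ℂ) * (2 * (starRingEnd ℂ) (ex τ a w))) := by
    rw [map_prod]
    refine Finset.prod_congr rfl fun w _ => ?_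
    rw [TFE_cp (hx w), TFE_conj_exp]
    congr 2
    have h2 : (a w : ℂ) + (w.mult : ℂ) * (τ w : ℂ) * I = 2 * ex τ a w := by
      unfold ex
      ring
    rw [h2, map_mul, Complex.conj_ofNat]
  have h3 : (∏ w : InfinitePlace K, Complex.exp (((Real.log (w x) : ℝ) : ℂ) * (-(2 * (starRingEnd ℂ) (ex τ a w))))) *
      (∏ w : InfinitePlace K, Complex.exp (((Real.log (w x) : ℝ) : ℂ) * (2 * (starRingEnd ℂ) (ex τ a w)))) = 1 := by
    rw [← Finset.prod_mul_distrib]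
    refine Finset.prod_eq_one fun w _ => ?_
    rw [← Complex.exp_add]
    have : ((Real.log (w x) : ℝ) : ℂ) * (-(2 * (starRingEnd ℂ) (ex τ a w))) +
        ((Real.log (w x) : ℝ) : ℂ) * (2 * (starRingEnd ℂ) (ex τ a w)) = 0 := by ring
    rw [this, Complex.exp_zero]
  have h4 := TFE_mc hA
  rw [hP, map_mul, h1]
  linear_combination (A * (starRingEnd ℂ) A) * h3 + h4

end

/-- the final computation -/
theorem TFE_alg (X1 X2 wc A0 w₀ P B U Yr Yn Yc Y Z S s q r N1 Nf NN J : ℂ) (hY : Y * Yr = Yn * Yc)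
    (hZ : Z = B * Yc) (hB : B * A0 * P = 1) (hr : r = s * q) (hq : q * q = Nf) (hNN : NN = N1 * Nf)
    (hX2 : X2 * U = 1) (hw : w₀ = wc * A0 * (X1 * U)) (hs0 : s ≠ 0) (hq0 : q ≠ 0) (hN1 : N1 ≠ 0) :
    X1 * Y * (J * wc / (s * NN * P) * Yr * S) = J * w₀ / q * (Yn / (N1 * r)) * (X2 * Z * S) := by
  have hP0 : P ≠ 0 := by
    rintro rfl
    rw [mul_zero] at hB
    exact zero_ne_one hB
  have hPi : P⁻¹ = B * A0 := inv_eq_of_mul_eq_one_left hB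
  have hNf : Nf ≠ 0 := by
    rw [← hq]
    exact mul_ne_zero hq0 hq0
  have e1 : X1 * Y * (J * wc / (s * NN * P) * Yr * S) = (Y * Yr) * (X1 * J * wc * S) * (P⁻¹ / (s * (N1 * Nf))) := by
    rw [hNN]
    field_simp
  have e2 : J * w₀ / q * (Yn / (N1 * r)) * (X2 * Z * S) =
      (X2 * U) * (J * (wc * A0 * X1)) * Yn * (B * Yc) * S / (q * (N1 * (s * q))) := by
    rw [hw, hr, hZ]
    field_simp
  rw [e1, e2, hX2, hPi, hY, ← hq]
  field_simp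

theorem TFE (hHGC : HGC_stmt) (hSGN : SGN_stmt) (hAIF : AIF_stmt) (hREP : REP_stmt) (hNUC : NUC_stmt)
    (hGEN : GEN_stmt) (hGSB : GSB_stmt) (hGSD : GSD_stmt) (hSTH : STH_stmt) (hSFE : SFE_stmt) (hPRO : PRO_stmt) :
    TFE_stmt := by
  intro K _ _ f χ τ m hχ
  obtain ⟨-, -, G, hG, hGχ⟩ := hHGC K f χ τ m hχ
  obtain ⟨e, F, hF, he1, hec, hGF⟩ := hSGN K f G hG
  have hAd : Ad m e := ⟨hχ.real, he1, hec⟩
  obtain ⟨-, -, aN, aAr, -, aP, -⟩ := hAIF K τ m e hAd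
  have hχF : ∀ x : 𝓞 K, x ≠ 0 → χ (Ideal.span {x}) = F x * Ai τ m e (x : K) := by
    intro x hx
    rw [hGχ x hx, hGF x hx, aAr x]
    ring
  obtain ⟨b, σ, β, hRep, hbf, hβ⟩ := hREP K f hχ.f0
  have hb0 : ∀ c, b c ≠ ⊥ := fun c => (hRep c).1
  have hν : ∀ c, ∃ ν : 𝓞 K, ν ∈ b c ∧ ν - 1 ∈ f ∧ ν ≠ 0 := fun c => (hNUC K (b c) f (hb0 c) (hbf c)).1
  choose ν hν using hν
  obtain ⟨δ, hδ, hTh⟩ := hSTH K f χ τ m e F hχ hAd hF hχF
  obtain ⟨-, -, hDc, hel, hNmul, hNm1, -⟩ := hPRO K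
  set W : ClassGroup (𝓞 K) → ℂ := fun c => gs f F (((ν c * ν (σ c) : 𝓞 K) : K) / ((β c : 𝓞 K) : K)) with hW
  have hWn : ∀ c, ‖W c‖ ^ 2 = Nm f := by
    intro c
    obtain ⟨h1, h2, -⟩ := hGEN K (b c) (b (σ c)) f (β c) (ν c) (ν (σ c)) (hb0 c) (hb0 _) hχ.f0 (hbf c) (hbf _)
      (hβ c).1 (hβ c).2.1 (hν c).1 (hν c).2.1 (hν (σ c)).1 (hν (σ c)).2.1
    exact hGSB K f F _ hχ.f0 hF h1 h2
  have hWd : ∀ c d, W c * Ai τ m e ((β c : 𝓞 K) : K) * (starRingEnd ℂ) (χ (b c) * χ (b (σ c))) =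
      W d * Ai τ m e ((β d : 𝓞 K) : K) * (starRingEnd ℂ) (χ (b d) * χ (b (σ d))) := by
    intro c d
    exact hGSD K f χ τ m e F (b c) (b (σ c)) (b d) (b (σ d)) (β c) (β d) (ν c) (ν (σ c)) (ν d) (ν (σ d)) hχ hAd hF hχF
      (hb0 _) (hb0 _) (hb0 _) (hb0 _) (hbf _) (hbf _) (hbf _) (hbf _) (hβ c).1 (hβ d).1 (hβ c).2.1 (hβ d).2.1
      (hν _) (hν _) (hν _) (hν _)
  have hβK : ∀ c, ((β c : 𝓞 K) : K) ≠ 0 := fun c => by
    intro h
    exact (hβ c).1 (by exact_mod_cast h)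
  have hχ1 : ∀ c, ‖χ (b c)‖ = 1 := fun c => hχ.unit _ (hb0 c) (hbf c)
  set w₀ : ℂ := W 1 * Ai τ m e ((β 1 : 𝓞 K) : K) * (starRingEnd ℂ) (χ (b 1) * χ (b (σ 1))) with hw₀
  have hNf : 1 ≤ Nm f := hNm1 f hχ.f0
  have hNf0 : 0 < Nm f := by linarith
  have hw₀n : ‖w₀‖ = Real.sqrt (Nm f) := by
    rw [hw₀, norm_mul, norm_mul, RCLike.norm_conj, norm_mul, hχ1, hχ1, (aN _ (hβK 1)).1, mul_one, mul_one, mul_one,
      ← hWn 1, Real.sqrt_sq (norm_nonneg _)]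
  have hsq0 : 0 < Real.sqrt (Nm f) := Real.sqrt_pos.2 hNf0
  refine ⟨e, δ, (-I) ^ (∑ w, aa m e w) * w₀ / ((Real.sqrt (Nm f) : ℝ) : ℂ), b, σ, β, hRep, hbf, ?_, he1, hec, hδ,
    fun c => ⟨(hβ c).1, (hβ c).2.2⟩, ?_⟩
  · rw [norm_div, norm_mul, norm_pow, norm_neg, Complex.norm_I, one_pow, one_mul, hw₀n, Complex.norm_real,
      Real.norm_of_nonneg hsq0.le, div_self hsq0.ne']
  · intro c y hy
    have hwβ : ∀ w : InfinitePlace K, 0 < w ((β c : 𝓞 K) : K) := (hel (β c) (hβ c).1).2.1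
    have hz : ∀ w : InfinitePlace K, 0 < 1 / ((w ((β c : 𝓞 K) : K)) ^ 2 * y w) := by
      intro w
      have := hwβ w
      have := hy w
      positivity
    have h1 := hTh (b c) y (hb0 c) hy
    have h2 := hTh (b (σ c)) (fun w => 1 / ((w ((β c : 𝓞 K) : K)) ^ 2 * y w)) (hb0 _) hz
    have h3 := hSFE K (b c) (b (σ c)) f F (β c) (ν c) (ν (σ c)) m e y (hb0 c) (hb0 _) hχ.f0 hF hAd (hbf c) (hbf _)
      (hβ c).1 (hβ c).2.1 (hν c).1 (hν c).2.1 (hν (σ c)).1 (hν (σ c)).2.1 hy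
    rw [h1, h2, h3, map_mul, map_mul, Complex.conj_conj]
    have hY := TFE_y τ (aa m e) y hy
    have hZ := TFE_z τ (aa m e) y (fun w => 1 / ((w ((β c : 𝓞 K) : K)) ^ 2 * y w)) ((β c : 𝓞 K) : K) hy hwβ (fun _ => rfl)
    have hB := TFE_b τ (aa m e) ((β c : 𝓞 K) : K) (Pm m e ((β c : 𝓞 K) : K)) (Ai τ m e ((β c : 𝓞 K) : K)) hwβ
      (aN _ (hβK c)).1 (aP _ (hβK c))
    have hs : (0 : ℝ) < (Dc K) ^ (1 / 2 : ℝ) := by
      have : (0 : ℝ) < Dc K := by linarith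
      positivity
    have hN1 : 0 < Nm (b c) := by
      have := hNm1 (b c) (hb0 c)
      linarith
    have hr : (((Dc K * Nm f) ^ (1 / 2 : ℝ) : ℝ) : ℂ) = (((Dc K) ^ (1 / 2 : ℝ) : ℝ) : ℂ) * ((Real.sqrt (Nm f) : ℝ) : ℂ) := by
      rw [Real.mul_rpow (by linarith) hNf0.le, Complex.ofReal_mul, ← Real.sqrt_eq_rpow (Nm f)]
    have key := TFE_alg ((starRingEnd ℂ) (χ (b c))) (χ (b (σ c))) (W c) (Ai τ m e ((β c : 𝓞 K) : K)) w₀
      ((starRingEnd ℂ) (Pm m e ((β c : 𝓞 K) : K))) _ ((starRingEnd ℂ) (χ (b (σ c)))) _ _ _ _ _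
      ((starRingEnd ℂ) (Sb (b (σ c)) F m e (fun w => 1 / ((w ((β c : 𝓞 K) : K)) ^ 2 * y w))))
      (((Dc K) ^ (1 / 2 : ℝ) : ℝ) : ℂ) ((Real.sqrt (Nm f) : ℝ) : ℂ) _ ((Nm (b c) : ℝ) : ℂ) ((Nm f : ℝ) : ℂ)
      ((Nm (b c * f) : ℝ) : ℂ) ((-I) ^ (∑ w, aa m e w)) hY hZ hB hr
      (by rw [← Complex.ofReal_mul, Real.mul_self_sqrt hNf0.le])
      (by rw [hNmul, Complex.ofReal_mul])
      (TFE_mc (hχ1 _)) (by rw [hw₀, ← hWd c 1, map_mul])
      (by exact_mod_cast hs.ne') (by exact_mod_cast hsq0.ne') (by exact_mod_cast hN1.ne')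
    rw [Complex.ofReal_mul, Complex.ofReal_div, Complex.ofReal_mul]
    rw [← key]

end Pool.Agent.UN
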