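import Pool.Agent.helper1.UN.SpecU

/-!
# Project UN (MP_cf4097_nt), row VLG: local integrals
-/

set_option autoImplicit false

open NumberField Complex MeasureTheory NumberField.Units NumberField.Units.dirichletUnitTheorem

open scoped Classical

namespace Pool.Agent.UN

section

variable {K : Type} [Field K] [NumberField K]

/-- the integrand of VGN at the point `t + 2 lv l w` -/
theorem VLG_pt (hVLV : VLV_stmt) (hPRO : PRO_stmt) (χ : Ideal (𝓞 K) → ℂ) (τ : InfinitePlace K → ℝ)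
    (a : InfinitePlace K → ℕ) (s : ℂ) (x : 𝓞 K) (p : ℝ × logSpace K) :
    tq χ τ a (Yl (Real.exp p.1) p.2) x * cexp ((Module.finrank ℚ K : ℂ) * s / 2 * p.1) =
      χ (Ideal.span {x}) * (QT τ a (fun w => (w (x : K)) ^ 2 * Real.exp (p.1 + 2 * lv p.2 w)) *
        cexp (s / 2 * ((∑ w : InfinitePlace K, (w.mult : ℝ) * (p.1 + 2 * lv p.2 w) : ℝ) : ℂ))) := by
  have h1 : ∑ w : InfinitePlace K, (w.mult : ℝ) * (p.1 + 2 * lv p.2 w) = (Module.finrank ℚ K : ℝ) * p.1 := by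
    have h2 := (hVLV K).1 p.2
    have h3 : ∑ w : InfinitePlace K, (w.mult : ℝ) = (Module.finrank ℚ K : ℝ) := by
      exact_mod_cast (hPRO K).2.1
    have h4 : ∀ w : InfinitePlace K, (w.mult : ℝ) * (p.1 + 2 * lv p.2 w) =
        (w.mult : ℝ) * p.1 + 2 * ((w.mult : ℝ) * lv p.2 w) := fun w => by ring
    rw [Finset.sum_congr rfl fun w _ => h4 w, Finset.sum_add_distrib, ← Finset.sum_mul, ← Finset.mul_sum, h2, h3,
      mul_zero, add_zero]
  have h5 : ∀ w : InfinitePlace K, Yl (Real.exp p.1) p.2 w = Real.exp (p.1 + 2 * lv p.2 w) := by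
    intro w
    unfold Yl
    rw [Real.exp_add]
  rw [h1]
  unfold tq
  simp only [h5]
  rw [mul_assoc]
  congr 3
  push_cast
  ring

/-- the product of the local factors -/
theorem VLG_prod (hPRO : PRO_stmt) (s : ℂ) (x : 𝓞 K) (hx : x ≠ 0) :
    (∏ w : InfinitePlace K, (((w (x : K)) ^ 2 : ℝ) : ℂ) ^ (-((w.mult : ℂ) * s / 2))) =
      (Nm (Ideal.span {x}) : ℂ) ^ (-s) := by
  obtain ⟨h1, h2, h3⟩ := (hPRO K).2.2.2.1 x hx
  have h4 : (0 : ℝ) < Nm (Ideal.span {x}) := by linarith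
  have h5 : ∀ w : InfinitePlace K, (((w (x : K)) ^ 2 : ℝ) : ℂ) ^ (-((w.mult : ℂ) * s / 2)) =
      cexp (((w.mult : ℝ) * Real.log (w (x : K)) : ℝ) * (-s)) := by
    intro w
    have h6 : (0 : ℝ) < (w (x : K)) ^ 2 := by
      have := h2 w
      positivity
    rw [Complex.cpow_def_of_ne_zero (by exact_mod_cast h6.ne'), ← Complex.ofReal_log h6.le, Real.log_pow]
    congr 1
    push_cast
    ring
  rw [Finset.prod_congr rfl fun w _ => h5 w, ← Complex.exp_sum, ← Finset.sum_mul, ← Complex.ofReal_sum, h3,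
    Complex.cpow_def_of_ne_zero (by exact_mod_cast h4.ne'), ← Complex.ofReal_log h4.le]

/-- the two integrals for one `x` -/
theorem VLG_int (hVGN : VGN_stmt) (hVLV : VLV_stmt) (hPRO : PRO_stmt) {κ₀ : ℝ} (hKP : KP K κ₀)
    (χ : Ideal (𝓞 K) → ℂ) (τ : InfinitePlace K → ℝ) (a : InfinitePlace K → ℕ) (s : ℂ) (hs : 0 < s.re) (x : 𝓞 K)
    (hx : x ≠ 0) :
    Integrable (fun p : ℝ × logSpace K => tq χ τ a (Yl (Real.exp p.1) p.2) x *
      cexp ((Module.finrank ℚ K : ℂ) * s / 2 * p.1)) ∧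
    ∫ p : ℝ × logSpace K, tq χ τ a (Yl (Real.exp p.1) p.2) x * cexp ((Module.finrank ℚ K : ℂ) * s / 2 * p.1) =
      κ₀ * gf τ a s * (χ (Ideal.span {x}) * (Nm (Ideal.span {x}) : ℂ) ^ (-s)) := by
  obtain ⟨-, hK⟩ := hKP
  have hw : ∀ w : InfinitePlace K, 0 < w (x : K) := ((hPRO K).2.2.2.1 x hx).2.1
  have hν : ∀ w : InfinitePlace K, 0 < (w (x : K)) ^ 2 := fun w => by
    have := hw w
    positivity
  obtain ⟨h1, h2⟩ := hVGN K τ a (fun w => (w (x : K)) ^ 2) s hν hs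
  obtain ⟨h3, h4⟩ := hK (fun y => QT τ a (fun w => (w (x : K)) ^ 2 * Real.exp (y w)) *
    cexp (s / 2 * ((∑ w : InfinitePlace K, (w.mult : ℝ) * y w : ℝ) : ℂ)))
  have h5 := h3 h1
  rw [h2, VLG_prod hPRO s x hx] at h4
  simp only [VLG_pt hVLV hPRO]
  refine ⟨h5.const_mul _, ?_⟩
  rw [integral_const_mul, h4]
  ring

end

theorem VLG (hVGN : VGN_stmt) (hVQB : VQB_stmt) (hVLV : VLV_stmt) (hPRO : PRO_stmt) : VLG_stmt := by
  intro K _ _ κ₀ χ τ a s hKP hs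
  refine ⟨‖(κ₀ : ℂ) * gf (fun _ => 0) a (s.re : ℂ)‖, norm_nonneg _, fun x hx => ?_⟩
  obtain ⟨h1, h2⟩ := VLG_int hVGN hVLV hPRO hKP χ τ a s hs x hx
  refine ⟨h1, h2, ?_⟩
  obtain ⟨h3, h4⟩ := VLG_int hVGN hVLV hPRO hKP (fun I => ((‖χ I‖ : ℝ) : ℂ)) (fun _ => 0) a (s.re : ℂ)
    (by rw [Complex.ofReal_re]; exact hs) x hx
  have hw : ∀ w : InfinitePlace K, 0 < w (x : K) := ((hPRO K).2.2.2.1 x hx).2.1
  have h5 : ∀ p : ℝ × logSpace K, tq (fun I => ((‖χ I‖ : ℝ) : ℂ)) (fun _ => 0) a (Yl (Real.exp p.1) p.2) x *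
      cexp ((Module.finrank ℚ K : ℂ) * (s.re : ℂ) / 2 * p.1) =
      ((‖tq χ τ a (Yl (Real.exp p.1) p.2) x * cexp ((Module.finrank ℚ K : ℂ) * s / 2 * p.1)‖ : ℝ) : ℂ) := by
    intro p
    have hu : ∀ w : InfinitePlace K, 0 < (w (x : K)) ^ 2 * Yl (Real.exp p.1) p.2 w := by
      intro w
      have := hw w
      unfold Yl
      positivity
    unfold tq
    rw [(hVQB K τ a).2 _ hu, norm_mul, norm_mul, Complex.norm_exp]
    have h6 : ((Module.finrank ℚ K : ℂ) * s / 2 * p.1).re = (Module.finrank ℚ K : ℝ) * s.re / 2 * p.1 := by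
      have h7 : (Module.finrank ℚ K : ℂ) * s / 2 * p.1 = (((Module.finrank ℚ K : ℝ) / 2 * p.1 : ℝ) : ℂ) * s := by
        push_cast
        ring
      rw [h7, Complex.re_ofReal_mul]
      ring
    rw [h6]
    push_cast
    ring
  simp only [h5] at h4
  rw [integral_complex_ofReal] at h4
  have h8 : (0 : ℝ) < Nm (Ideal.span {x}) := by
    have := ((hPRO K).2.2.2.1 x hx).1
    linarith
  have h9 : 0 ≤ ∫ p : ℝ × logSpace K, ‖tq χ τ a (Yl (Real.exp p.1) p.2) x *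
      cexp ((Module.finrank ℚ K : ℂ) * s / 2 * p.1)‖ := integral_nonneg fun _ => norm_nonneg _
  have h10 := congrArg norm h4
  rw [Complex.norm_real, Real.norm_of_nonneg h9] at h10
  rw [h10, norm_mul ((κ₀ : ℂ) * gf (fun _ => 0) a (s.re : ℂ))]
  congr 1
  rw [norm_mul, Complex.norm_real, norm_norm]
  congr 1
  rw [← Complex.ofReal_neg, Complex.norm_cpow_eq_rpow_re_of_pos h8, Complex.ofReal_re]

end Pool.Agent.UN
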